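import Pool.Agent.Helper49.KR.St

set_option autoImplicit false

namespace Pool.Agent.Helper28.KR

open Finset Filter Topology
open Pool.Agent.Helper49.KX Pool.Agent.Helper49.KR

theorem cover (α : ℝ) (hα : Irrational α) (δ : ℝ) (hδ : 0 < δ) :
    ∃ m : ℕ, ∀ t : X0, ∃ i : ℕ, i < m ∧ dist (i • ((α : ℝ) : X0)) t < δ := by
  haveI : Fact ((0 : ℝ) < 1) := ⟨one_pos⟩
  have hd : DenseRange (fun n : ℤ => n • ((α : ℝ) : X0)) := by
    have h := (AddCircle.denseRange_zsmul_coe_iff (a := α) (p := 1)).mpr (by simpa using hα)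
    exact h
  have hd2 : DenseRange (fun n : ℕ => n • ((α : ℝ) : X0)) := denseRange_zsmul_iff_nsmul.mp hd
  have hcov : (Set.univ : Set X0) ⊆ ⋃ n : ℕ, Metric.ball (n • ((α : ℝ) : X0)) δ := by
    intro x _
    obtain ⟨n, hn⟩ := hd2.exists_dist_lt x hδ
    refine Set.mem_iUnion.mpr ⟨n, ?_⟩
    simpa [Metric.mem_ball] using hn
  obtain ⟨T, hT⟩ := isCompact_univ.elim_finite_subcover (fun n : ℕ => Metric.ball (n • ((α : ℝ) : X0)) δ)
    (fun n => Metric.isOpen_ball) hcov
  refine ⟨T.sup id + 1, fun t => ?_⟩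
  have h1 := hT (Set.mem_univ t)
  simp only [Set.mem_iUnion] at h1
  obtain ⟨i, hi, h2⟩ := h1
  refine ⟨i, Nat.lt_succ_of_le (Finset.le_sup (f := id) hi), ?_⟩
  rw [dist_comm]
  exact Metric.mem_ball.mp h2

theorem hEQD : StEqd := by
  intro α hα ψ hψ hper ε hε
  haveI : Fact ((0 : ℝ) < 1) := ⟨one_pos⟩
  have hp : Function.Periodic ψ 1 := hper
  let g : X0 → ℝ := hp.lift
  have hg : ∀ s : ℝ, g ((s : ℝ) : X0) = ψ s := fun s => hp.lift_coe s
  have hgc : Continuous g := by
    apply continuous_coinduced_dom.mpr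
    exact hψ
  have hu : UniformContinuous g := CompactSpace.uniformContinuous_of_continuous hgc
  obtain ⟨δ, hδ, hδ2⟩ := Metric.uniformContinuous_iff.mp hu (ε / 2) (by positivity)
  obtain ⟨B0, hB0⟩ := isCompact_univ.exists_bound_of_continuousOn hgc.continuousOn
  set B : ℝ := max B0 0 with hB
  have hB1 : ∀ x : X0, |g x| ≤ B := fun x =>
    (by simpa [Real.norm_eq_abs] using hB0 x (Set.mem_univ x) : |g x| ≤ B0).trans (le_max_left _ _)
  have hBn : 0 ≤ B := le_max_right _ _
  obtain ⟨m, hm⟩ := cover α hα δ hδ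
  refine ⟨⌈4 * m * B / ε⌉₊, fun n hn s s' => ?_⟩
  have hn1 : 4 * m * B / ε ≤ n := (Nat.le_ceil _).trans (by exact_mod_cast hn)
  have hn2 : 4 * m * B ≤ n * ε := by rwa [div_le_iff₀ hε] at hn1
  obtain ⟨i, him, hi⟩ := hm (((s' - s : ℝ)) : X0)
  let G : ℕ → ℝ := fun l => ψ (s + (l : ℝ) * α)
  have hGb : ∀ l, |G l| ≤ B := by
    intro l
    have := hB1 ((s + (l : ℝ) * α : ℝ) : X0)
    rwa [hg] at this
  have h1 : ∑ l ∈ range (i + n), G l = ∑ l ∈ range i, G l + ∑ l ∈ range n, G (i + l) :=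
    Finset.sum_range_add G i n
  have h2 : ∑ l ∈ range (n + i), G l = ∑ l ∈ range n, G l + ∑ l ∈ range i, G (n + l) :=
    Finset.sum_range_add G n i
  rw [add_comm n i] at h2
  have h3 : ∑ l ∈ range i, G l ≤ i * B := by
    calc ∑ l ∈ range i, G l ≤ ∑ l ∈ range i, B := Finset.sum_le_sum fun l _ => (abs_le.mp (hGb l)).2
      _ = i * B := by simp
  have h4 : -(i * B) ≤ ∑ l ∈ range i, G (n + l) := by
    calc -(i * B) = ∑ l ∈ range i, (-B) := by simp
      _ ≤ ∑ l ∈ range i, G (n + l) := Finset.sum_le_sum fun l _ => (abs_le.mp (hGb (n + l))).1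
  have h5 : ∑ l ∈ range n, G (i + l) - ∑ l ∈ range n, ψ (s' + (l : ℝ) * α) ≤ n * (ε / 2) := by
    rw [← Finset.sum_sub_distrib]
    calc ∑ l ∈ range n, (G (i + l) - ψ (s' + (l : ℝ) * α)) ≤ ∑ l ∈ range n, (ε / 2) := by
          apply Finset.sum_le_sum
          intro l _
          have h6 : dist (((s + ((i + l : ℕ) : ℝ) * α : ℝ)) : X0) (((s' + (l : ℝ) * α : ℝ)) : X0) < δ := by
            have h7 : (((s + ((i + l : ℕ) : ℝ) * α : ℝ)) : X0) =
                i • ((α : ℝ) : X0) + (((s + (l : ℝ) * α : ℝ)) : X0) := by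
              rw [← AddCircle.coe_nsmul, ← AddCircle.coe_add]
              congr 1
              push_cast
              rw [nsmul_eq_mul]
              ring
            have h8 : (((s' + (l : ℝ) * α : ℝ)) : X0) =
                (((s' - s : ℝ)) : X0) + (((s + (l : ℝ) * α : ℝ)) : X0) := by
              rw [← AddCircle.coe_add]
              congr 1
              ring
            rw [h7, h8, dist_add_right]
            exact hi
          have h9 := hδ2 h6
          rw [hg, hg, Real.dist_eq] at h9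
          exact (le_abs_self _).trans h9.le
      _ = n * (ε / 2) := by simp
  have h10 : (i : ℝ) * B ≤ m * B := by
    apply mul_le_mul_of_nonneg_right _ hBn
    exact_mod_cast him.le
  have h11 : ∑ l ∈ range n, G l = ∑ l ∈ range n, ψ (s + (l : ℝ) * α) := rfl
  rw [← h11]
  nlinarith [h1, h2, h3, h4, h5, h10, hn2]

end Pool.Agent.Helper28.KR
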